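import Pool.Agent.Y6.M.Stm

/-! The quadratic term in helical amplitudes. -/

open Set Filter Topology
open scoped ComplexConjugate

set_option autoImplicit false

namespace Pool.Agent.Y26.EM.PH2

open Pool.Agent.Y6.M

/-! ### Summability over `ℤ³` -/

noncomputable def g1 (n : ℤ) : ℝ := 1 / (1 + (n : ℝ) ^ 2)

lemma g1_pos (n : ℤ) : 0 < g1 n := by unfold g1; positivity

lemma g1_summable : Summable g1 := by
  have h1 : Summable (fun n : ℤ => 1 / (n : ℝ) ^ 2) := Real.summable_one_div_int_pow.2 (by norm_num)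
  have h2 : Summable (fun n : ℤ => if n = 0 then (1 : ℝ) else 0) := (hasSum_ite_eq 0 1).summable
  refine Summable.of_nonneg_of_le (fun n => (g1_pos n).le) (fun n => ?_) (h1.add h2)
  unfold g1
  by_cases h : n = 0
  · rw [h]; simp
  · rw [if_neg h, add_zero]
    have : (0 : ℝ) < (n : ℝ) ^ 2 := by positivity
    exact one_div_le_one_div_of_le this (by linarith)

/-- the product of the three functions -/
noncomputable def g3 (p : Z3) : ℝ := g1 (p 0) * (g1 (p 1) * g1 (p 2))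

def eZ : Z3 ≃ ℤ × ℤ × ℤ where
  toFun p := (p 0, p 1, p 2)
  invFun t := ![t.1, t.2.1, t.2.2]
  left_inv p := by funext j; fin_cases j <;> rfl
  right_inv t := rfl

lemma g3_pos (p : Z3) : 0 < g3 p := mul_pos (g1_pos _) (mul_pos (g1_pos _) (g1_pos _))

lemma g3_summable : Summable g3 := by
  have h1 : Summable (fun t : ℤ × ℤ => g1 t.1 * g1 t.2) :=
    g1_summable.mul_of_nonneg g1_summable (fun n => (g1_pos n).le) (fun n => (g1_pos n).le)
  have h2 : Summable (fun t : ℤ × (ℤ × ℤ) => g1 t.1 * (g1 t.2.1 * g1 t.2.2)) :=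
    g1_summable.mul_of_nonneg (g := fun t : ℤ × ℤ => g1 t.1 * g1 t.2) h1
      (fun n => (g1_pos n).le) (fun n => (mul_pos (g1_pos _) (g1_pos _)).le)
  exact (eZ.summable_iff (f := fun t : ℤ × (ℤ × ℤ) => g1 t.1 * (g1 t.2.1 * g1 t.2.2))).2 h2

lemma nsq_eq (k : Z3) : (nsq k : ℝ) = (k 0 : ℝ) ^ 2 + (k 1 : ℝ) ^ 2 + (k 2 : ℝ) ^ 2 := by
  unfold nsq; rw [Fin.sum_univ_three]; push_cast; ring

lemma nsq_nonneg (k : Z3) : (0 : ℝ) ≤ (nsq k : ℝ) := by rw [nsq_eq]; positivity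

lemma len_sq (k : Z3) : len k ^ 2 = (nsq k : ℝ) := Real.sq_sqrt (nsq_nonneg k)

lemma len_nonneg (k : Z3) : 0 ≤ len k := Real.sqrt_nonneg _

lemma abs_le_len (k : Z3) (j : Fin 3) : |(k j : ℝ)| ≤ len k := by
  unfold len
  apply Real.abs_le_sqrt
  rw [nsq_eq]
  have h0 := sq_nonneg (k 0 : ℝ)
  have h1 := sq_nonneg (k 1 : ℝ)
  have h2 := sq_nonneg (k 2 : ℝ)
  fin_cases j
  · show (k 0 : ℝ) ^ 2 ≤ _; linarith
  · show (k 1 : ℝ) ^ 2 ≤ _; linarith
  · show (k 2 : ℝ) ^ 2 ≤ _; linarith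

lemma g3_ge (k : Z3) : 1 ≤ (1 + (nsq k : ℝ)) ^ 3 * g3 k := by
  have h0 := sq_nonneg (k 0 : ℝ)
  have h1 := sq_nonneg (k 1 : ℝ)
  have h2 := sq_nonneg (k 2 : ℝ)
  have hn := nsq_eq k
  unfold g3 g1
  have e : (1 + (nsq k : ℝ)) ^ 3 * (1 / (1 + (k 0 : ℝ) ^ 2) * (1 / (1 + (k 1 : ℝ) ^ 2) *
      (1 / (1 + (k 2 : ℝ) ^ 2)))) =
      ((1 + (nsq k : ℝ)) / (1 + (k 0 : ℝ) ^ 2)) * (((1 + (nsq k : ℝ)) / (1 + (k 1 : ℝ) ^ 2)) *
      ((1 + (nsq k : ℝ)) / (1 + (k 2 : ℝ) ^ 2))) := by ring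
  rw [e]
  have a0 : 1 ≤ (1 + (nsq k : ℝ)) / (1 + (k 0 : ℝ) ^ 2) := by
    rw [one_le_div (by positivity)]; linarith
  have a1 : 1 ≤ (1 + (nsq k : ℝ)) / (1 + (k 1 : ℝ) ^ 2) := by
    rw [one_le_div (by positivity)]; linarith
  have a2 : 1 ≤ (1 + (nsq k : ℝ)) / (1 + (k 2 : ℝ) ^ 2) := by
    rw [one_le_div (by positivity)]; linarith
  exact one_le_mul_of_one_le_of_one_le a0 (one_le_mul_of_one_le_of_one_le a1 a2)

/-! ### Fields -/

/-- size of a coefficient -/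
noncomputable def WW (V : Coef) (p : Z3) : ℝ := ∑ j, ‖V p j‖

noncomputable def SS (q : Z3) : ℝ := ∑ j, |(q j : ℝ)|

lemma WW_nonneg (V : Coef) (p : Z3) : 0 ≤ WW V p := Finset.sum_nonneg fun _ _ => norm_nonneg _
lemma SS_nonneg (q : Z3) : 0 ≤ SS q := Finset.sum_nonneg fun _ _ => abs_nonneg _

lemma le_WW (V : Coef) (p : Z3) (j : Fin 3) : ‖V p j‖ ≤ WW V p :=
  Finset.single_le_sum (f := fun j => ‖V p j‖) (fun _ _ => norm_nonneg _) (Finset.mem_univ j)

lemma WW_summable {V : Coef} (hV : IsField V) : Summable (WW V) := by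
  obtain ⟨M0, h0⟩ := hV.smooth 0
  obtain ⟨M2, h2⟩ := hV.smooth 2
  obtain ⟨M4, h4⟩ := hV.smooth 4
  obtain ⟨M6, h6⟩ := hV.smooth 6
  refine Summable.of_nonneg_of_le (WW_nonneg V) (fun p => ?_)
    (g3_summable.mul_left (3 * (M0 + 3 * M2 + 3 * M4 + M6)))
  have key : ∀ j, ‖V p j‖ ≤ (M0 + 3 * M2 + 3 * M4 + M6) * g3 p := by
    intro j
    have a0 := h0 p j
    have a2 := h2 p j
    have a4 := h4 p j
    have a6 := h6 p j
    have e : (1 + (nsq p : ℝ)) ^ 3 * ‖V p j‖ ≤ M0 + 3 * M2 + 3 * M4 + M6 := by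
      rw [← len_sq]
      have : (1 + len p ^ 2) ^ 3 * ‖V p j‖ = len p ^ 0 * ‖V p j‖ + 3 * (len p ^ 2 * ‖V p j‖) +
        3 * (len p ^ 4 * ‖V p j‖) + len p ^ 6 * ‖V p j‖ := by ring
      rw [this]; linarith
    have g := g3_ge p
    calc ‖V p j‖ = 1 * ‖V p j‖ := (one_mul _).symm
      _ ≤ ((1 + (nsq p : ℝ)) ^ 3 * g3 p) * ‖V p j‖ :=
        mul_le_mul_of_nonneg_right g (norm_nonneg _)
      _ = ((1 + (nsq p : ℝ)) ^ 3 * ‖V p j‖) * g3 p := by ring
      _ ≤ _ := mul_le_mul_of_nonneg_right e (g3_pos p).le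
  unfold WW
  rw [Fin.sum_univ_three]
  have k0 := key 0
  have k1 := key 1
  have k2 := key 2
  linarith

lemma WS_bdd {V : Coef} (hV : IsField V) : ∃ B, 0 ≤ B ∧ ∀ q, SS q * WW V q ≤ B := by
  obtain ⟨M, h⟩ := hV.smooth 1
  have hM : 0 ≤ M := (mul_nonneg (pow_nonneg (len_nonneg 0) _) (norm_nonneg _)).trans (h 0 0)
  refine ⟨9 * M, by linarith, fun q => ?_⟩
  have h1 : SS q ≤ 3 * len q := by
    unfold SS; rw [Fin.sum_univ_three]
    have := abs_le_len q 0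
    have := abs_le_len q 1
    have := abs_le_len q 2
    linarith
  have h2 : len q * WW V q ≤ 3 * M := by
    unfold WW; rw [Fin.sum_univ_three]
    have a0 := h q 0
    have a1 := h q 1
    have a2 := h q 2
    rw [pow_one] at a0 a1 a2
    linarith
  have := mul_le_mul_of_nonneg_right h1 (WW_nonneg V q)
  linarith

lemma kc_norm (q : Z3) (j : Fin 3) : ‖kc q j‖ = |(q j : ℝ)| := by
  unfold kc
  rw [Complex.norm_intCast]

lemma kc_le (q : Z3) (j : Fin 3) : ‖kc q j‖ ≤ SS q := by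
  rw [kc_norm]
  exact Finset.single_le_sum (f := fun j => |(q j : ℝ)|) (fun _ _ => abs_nonneg _)
    (Finset.mem_univ j)

lemma dt_kc_le (v : C3) (q : Z3) {B : ℝ} (hB : ∀ j, ‖v j‖ ≤ B) : ‖dt v (kc q)‖ ≤ B * SS q := by
  unfold dt
  refine (norm_sum_le _ _).trans ?_
  unfold SS
  rw [Finset.mul_sum]
  refine Finset.sum_le_sum fun j _ => ?_
  rw [norm_mul, kc_norm]
  exact mul_le_mul_of_nonneg_right (hB j) (abs_nonneg _)

lemma h_le {h : Md → C3} (F : Frame h) (i : Md) (j : Fin 3) : ‖h i j‖ ≤ 1 := by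
  have h1 := F.unit i
  unfold dt cj at h1
  have h2 : ∀ j, h i j * conj (h i j) = ((‖h i j‖ ^ 2 : ℝ) : ℂ) := by
    intro j; rw [Complex.mul_conj, Complex.normSq_eq_norm_sq]
  simp only [h2] at h1
  have h3 : ∑ j, ‖h i j‖ ^ 2 = 1 := by exact_mod_cast h1
  have h4 : ‖h i j‖ ^ 2 ≤ 1 := by
    rw [← h3]
    exact Finset.single_le_sum (f := fun j => ‖h i j‖ ^ 2) (fun _ _ => sq_nonneg _)
      (Finset.mem_univ j)
  have := norm_nonneg (h i j)
  nlinarith

lemma dt_h_le {h : Md → C3} (F : Frame h) (v : C3) (i : Md) :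
    ‖dt v (cj (h i))‖ ≤ ∑ j, ‖v j‖ := by
  unfold dt
  refine (norm_sum_le _ _).trans (Finset.sum_le_sum fun j _ => ?_)
  rw [norm_mul]
  unfold cj
  rw [Complex.norm_conj]
  exact mul_le_of_le_one_right (norm_nonneg _) (h_le F i j)

lemma dt_add_left (a b c : C3) (x y : ℂ) :
    dt (fun j => x * a j + y * b j) c = x * dt a c + y * dt b c := by
  unfold dt
  rw [Finset.mul_sum, Finset.mul_sum, ← Finset.sum_add_distrib]
  exact Finset.sum_congr rfl fun j _ => by ring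

/-- the good frequencies -/
def PP (k : Z3) : Set Z3 := {p | p ≠ 0 ∧ k - p ≠ 0}

/-- pairs of modes -/
def gp (k : Z3) (x : PP k × (Bool × Bool)) : Md × Md :=
  ((⟨x.1.1, x.1.2.1⟩, x.2.1), (⟨k - x.1.1, x.1.2.2⟩, x.2.2))

lemma gp_inj (k : Z3) : Function.Injective (gp k) := by
  rintro ⟨⟨p, hp⟩, s, s'⟩ ⟨⟨p', hp'⟩, t, t'⟩ h
  unfold gp at h
  simp only [Prod.mk.injEq, Subtype.mk.injEq] at h
  obtain ⟨⟨h1, h2⟩, h3, h4⟩ := h
  subst h1 h2 h4
  rfl

/-- the terms -/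
noncomputable def TT (h : Md → C3) (V : Coef) (i : Md) (p : Z3) : ℂ :=
  -(2 * Real.pi * Complex.I) * dt (V p) (kc (i.1.1 - p)) * dt (V (i.1.1 - p)) (cj (h i))

theorem t_PH2 : Pool.Agent.Y6.M.S_PH1 → Pool.Agent.Y6.M.S_PH2 := by
  intro _ h F V hV i
  obtain ⟨B, hB0, hB⟩ := WS_bdd hV
  have hW := WW_summable hV
  set k := i.1.1 with hk
  -- the left side
  have hpi : (0 : ℝ) ≤ 2 * Real.pi := by positivity
  have npi : ‖(2 * Real.pi * Complex.I : ℂ)‖ = 2 * Real.pi := by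
    rw [norm_mul, Complex.norm_I, mul_one, norm_mul, Complex.norm_ofNat, Complex.norm_real,
      Real.norm_eq_abs, abs_of_pos Real.pi_pos]
  have hA : ∀ j, Summable (fun p : Z3 =>
      2 * Real.pi * Complex.I * dt (V p) (kc (k - p)) * V (k - p) j) := by
    intro j
    refine Summable.of_norm_bounded (hW.mul_left (2 * Real.pi * B)) fun p => ?_
    rw [norm_mul, norm_mul, npi]
    have h1 := dt_kc_le (V p) (k - p) (fun j => le_WW V p j)
    have h2 := le_WW V (k - p) j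
    have h3 := hB (k - p)
    have h4 : ‖dt (V p) (kc (k - p))‖ * ‖V (k - p) j‖ ≤ (WW V p * SS (k - p)) * WW V (k - p) :=
      mul_le_mul h1 h2 (norm_nonneg _) (mul_nonneg (WW_nonneg _ _) (SS_nonneg _))
    have h5 : (WW V p * SS (k - p)) * WW V (k - p) ≤ WW V p * B := by
      rw [mul_assoc]; exact mul_le_mul_of_nonneg_left h3 (WW_nonneg _ _)
    have h6 := mul_le_mul_of_nonneg_left (h4.trans h5) hpi
    calc 2 * Real.pi * ‖dt (V p) (kc (k - p))‖ * ‖V (k - p) j‖ =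
        2 * Real.pi * (‖dt (V p) (kc (k - p))‖ * ‖V (k - p) j‖) := by ring
      _ ≤ _ := h6
      _ = _ := by ring
  have hL : -dt (adv V k) (cj (h i)) = ∑' p, TT h V i p := by
    unfold dt adv
    simp only [← tsum_mul_right]
    rw [← Summable.tsum_finsetSum (fun j _ => (hA j).mul_right _), ← tsum_neg]
    refine tsum_congr fun p => ?_
    unfold TT
    rw [← hk]
    show -∑ j, 2 * Real.pi * Complex.I * dt (V p) (kc (k - p)) * V (k - p) j * cj (h i) j =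
      -(2 * Real.pi * Complex.I) * dt (V p) (kc (k - p)) * ∑ j, V (k - p) j * cj (h i) j
    rw [Finset.mul_sum, ← Finset.sum_neg_distrib]
    exact Finset.sum_congr rfl fun j _ => by ring
  rw [hL]
  -- the right side
  set z := amp h V with hz
  set Fn : Md × Md → ℂ := fun p => cK h i p.1 p.2 * z p.1 * z p.2 with hFn
  have hz_le : ∀ a : Md, ‖z a‖ ≤ WW V a.1.1 := fun a => dt_h_le F _ _
  have hval : ∀ x : PP k × (Bool × Bool), Fn (gp k x) =
      -(2 * Real.pi * Complex.I) * dt (h (gp k x).1) (kc (k - x.1.1)) *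
        dt (h (gp k x).2) (cj (h i)) * z (gp k x).1 * z (gp k x).2 := by
    intro x
    simp only [hFn]
    unfold cK
    rw [if_pos]
    · rfl
    · show x.1.1 + (k - x.1.1) = i.1.1
      rw [← hk]; abel
  have hsupp : Function.support Fn ⊆ Set.range (gp k) := by
    rintro ⟨⟨⟨a, ha⟩, s⟩, ⟨⟨b, hb⟩, s'⟩⟩ hx
    have hab : a + b = k := by
      by_contra hne
      apply hx
      simp only [hFn]
      unfold cK
      rw [if_neg]
      · ring
      · rw [← hk]; exact hne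
    have hb' : b = k - a := by rw [← hab]; abel
    subst hb'
    exact ⟨(⟨a, ha, hb⟩, s, s'), rfl⟩
  have hR : qd (cK h) z i = ∑' x, Fn (gp k x) := by
    rw [(gp_inj k).tsum_eq hsupp]
    rfl
  rw [hR]
  have hsum : Summable (fun x => Fn (gp k x)) := by
    have h1 : Summable (fun p : PP k => WW V p.1) := hW.subtype _
    have h2 : Summable (fun x : PP k × (Bool × Bool) => WW V x.1.1 * (1 : ℝ)) :=
      h1.mul_of_nonneg (g := fun _ : Bool × Bool => (1 : ℝ)) (Summable.of_finite)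
        (fun p => WW_nonneg _ _) (fun _ => zero_le_one)
    refine Summable.of_norm_bounded (h2.mul_left (2 * Real.pi * 3 * B)) fun x => ?_
    rw [hval x, norm_mul, norm_mul, norm_mul, norm_mul, norm_neg, npi]
    have a1 : ‖dt (h (gp k x).1) (kc (k - x.1.1))‖ ≤ 1 * SS (k - x.1.1) :=
      dt_kc_le _ _ (fun j => h_le F _ j)
    have a2 : ‖dt (h (gp k x).2) (cj (h i))‖ ≤ 3 := by
      refine (dt_h_le F _ _).trans ?_
      rw [Fin.sum_univ_three]
      have := h_le F (gp k x).2 0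
      have := h_le F (gp k x).2 1
      have := h_le F (gp k x).2 2
      linarith
    have a3 : ‖z (gp k x).1‖ ≤ WW V x.1.1 := hz_le _
    have a4 : ‖z (gp k x).2‖ ≤ WW V (k - x.1.1) := hz_le _
    have a5 := hB (k - x.1.1)
    have n1 := SS_nonneg (k - x.1.1)
    have n2 := WW_nonneg V x.1.1
    have n3 := WW_nonneg V (k - x.1.1)
    calc 2 * Real.pi * ‖dt (h (gp k x).1) (kc (k - x.1.1))‖ * ‖dt (h (gp k x).2) (cj (h i))‖ *
          ‖z (gp k x).1‖ * ‖z (gp k x).2‖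
        ≤ 2 * Real.pi * (1 * SS (k - x.1.1)) * 3 * WW V x.1.1 * WW V (k - x.1.1) := by
          gcongr
      _ = 2 * Real.pi * 3 * WW V x.1.1 * (SS (k - x.1.1) * WW V (k - x.1.1)) := by ring
      _ ≤ 2 * Real.pi * 3 * WW V x.1.1 * B := by gcongr
      _ = _ := by ring
  rw [hsum.tsum_prod]
  have hTs : Function.support (TT h V i) ⊆ PP k := by
    intro p hp
    refine ⟨fun h0 => hp ?_, fun h0 => hp ?_⟩
    · unfold TT
      rw [h0, hV.zero]
      unfold dt; simp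
    · unfold TT
      rw [← hk, h0, hV.zero]
      unfold dt; simp
  rw [← tsum_subtype_eq_of_support_subset hTs]
  refine tsum_congr fun p => ?_
  rw [tsum_fintype]
  have c1 := F.compl ⟨p.1, p.2.1⟩ (V p.1) (hV.div _)
  have c2 := F.compl ⟨k - p.1, p.2.2⟩ (V (k - p.1)) (hV.div _)
  have e1 : V p.1 = fun j => z (⟨p.1, p.2.1⟩, true) * h (⟨p.1, p.2.1⟩, true) j +
      z (⟨p.1, p.2.1⟩, false) * h (⟨p.1, p.2.1⟩, false) j := funext c1
  have e2 : V (k - p.1) = fun j => z (⟨k - p.1, p.2.2⟩, true) * h (⟨k - p.1, p.2.2⟩, true) j +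
      z (⟨k - p.1, p.2.2⟩, false) * h (⟨k - p.1, p.2.2⟩, false) j := funext c2
  have d1 : dt (V p.1) (kc (k - p.1)) =
      z (⟨p.1, p.2.1⟩, true) * dt (h (⟨p.1, p.2.1⟩, true)) (kc (k - p.1)) +
      z (⟨p.1, p.2.1⟩, false) * dt (h (⟨p.1, p.2.1⟩, false)) (kc (k - p.1)) := by
    rw [← dt_add_left, ← e1]
  have d2 : dt (V (k - p.1)) (cj (h i)) =
      z (⟨k - p.1, p.2.2⟩, true) * dt (h (⟨k - p.1, p.2.2⟩, true)) (cj (h i)) +
      z (⟨k - p.1, p.2.2⟩, false) * dt (h (⟨k - p.1, p.2.2⟩, false)) (cj (h i)) := by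
    rw [← dt_add_left, ← e2]
  unfold TT
  rw [← hk, d1, d2]
  simp only [hval]
  rw [Fintype.sum_prod_type, Fintype.sum_bool, Fintype.sum_bool, Fintype.sum_bool]
  simp only [gp]
  ring

end Pool.Agent.Y26.EM.PH2
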